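import Pool.Agent.H50.LJ.Cnt1

/-!
# LEMMA J, row J4: the choice of the scale and of the derivative

`K_JUMP_helper79.md`, section 3.
-/

set_option autoImplicit false

namespace Pool.LJ

open Finset Real MvPolynomial
open Pool.Agent.H49.Ent Pool.Agent.H32.Dense Pool.STK Pool.KAL Pool.KST

section gap

variable {σ : Type*} [Finite σ]

/-- **The free scale.** `θ` is increasing, the number `|c 0|` is at most `θ 0` and some `|c β|`,
`β` of degree at most `I`, is at least `θ N`, where `N` is the number of these exponents. Then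
there are a scale and a step from a small to a large number. -/
theorem gap (c : (σ →₀ ℕ) → ℝ) (I : ℕ) (θ : ℕ → ℝ) (hθ : StrictMono θ)
    (h0 : |c 0| ≤ θ 0) (β₀ : σ →₀ ℕ) (hβ₀ : β₀.degree ≤ I)
    (hβ₁ : θ (expBox σ I).card ≤ |c β₀|) :
    ∃ i < (expBox σ I).card, ∃ (β : σ →₀ ℕ) (v : σ), (β + Finsupp.single v 1).degree ≤ I ∧
      |c β| ≤ θ i ∧ θ (i + 1) ≤ |c (β + Finsupp.single v 1)| := by
  classical
  set N := (expBox σ I).card with hN
  have hz : (0 : σ →₀ ℕ) ∈ expBox σ I := by
    rw [mem_expBox]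
    simp
  -- a free interval
  obtain ⟨i, hi, hfree⟩ : ∃ i < N, ∀ β ∈ expBox σ I, |c β| ≤ θ i ∨ θ (i + 1) ≤ |c β| := by
    by_contra hcon
    push Not at hcon
    choose f hf1 hf2 using hcon
    have hmaps : ∀ i ∈ (Finset.range N).attach, f i.1 (Finset.mem_range.1 i.2) ∈
        (expBox σ I).erase 0 := by
      intro i _
      have hlt := Finset.mem_range.1 i.2
      rw [Finset.mem_erase]
      refine ⟨fun h => ?_, hf1 i.1 hlt⟩
      have h1 := (hf2 i.1 hlt).1
      rw [h] at h1
      have h2 := hθ.monotone (Nat.zero_le i.1)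
      linarith
    have hcard : ((expBox σ I).erase 0).card < (Finset.range N).attach.card := by
      rw [Finset.card_attach, Finset.card_range, Finset.card_erase_of_mem hz, ← hN]
      have : 0 < N := by
        rw [hN]
        exact Finset.card_pos.2 ⟨0, hz⟩
      omega
    obtain ⟨a, -, b, -, hab, hfab⟩ := Finset.exists_ne_map_eq_of_card_lt_of_maps_to hcard hmaps
    have key : ∀ a b : {x // x ∈ Finset.range N}, a.1 < b.1 →
        f a.1 (Finset.mem_range.1 a.2) = f b.1 (Finset.mem_range.1 b.2) → False := by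
      intro a b hlt h
      have h1 := (hf2 a.1 (Finset.mem_range.1 a.2)).2
      have h2 := (hf2 b.1 (Finset.mem_range.1 b.2)).1
      rw [h] at h1
      have h3 := hθ.monotone (Nat.succ_le_of_lt hlt)
      have h4 : θ (a.1 + 1) ≤ θ b.1 := h3
      linarith
    rcases Nat.lt_trichotomy a.1 b.1 with h | h | h
    · exact key a b h hfab
    · exact hab (Subtype.ext h)
    · exact key b a h hfab.symm
  refine ⟨i, hi, ?_⟩
  -- a large number of least degree
  obtain ⟨S, hS⟩ : ∃ S, S = (expBox σ I).filter (fun β => θ (i + 1) ≤ |c β|) := ⟨_, rfl⟩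
  have hne : S.Nonempty := by
    refine ⟨β₀, ?_⟩
    rw [hS, Finset.mem_filter, mem_expBox]
    exact ⟨hβ₀, (hθ.monotone (by omega : i + 1 ≤ N)).trans hβ₁⟩
  obtain ⟨γ, hγ, hmin⟩ := Finset.exists_min_image S (fun β => β.degree) hne
  rw [hS, Finset.mem_filter, mem_expBox] at hγ
  have hγ0 : γ ≠ 0 := by
    rintro rfl
    have h1 := hθ.monotone (Nat.zero_le i)
    have h2 := hθ (Nat.lt_succ_self i)
    have h3 : θ i < θ (i + 1) := h2
    linarith [hγ.2]
  obtain ⟨v, hv⟩ := Finsupp.support_nonempty_iff.2 hγ0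
  rw [Finsupp.mem_support_iff] at hv
  have hsplit : γ - Finsupp.single v 1 + Finsupp.single v 1 = γ := by
    refine tsub_add_cancel_of_le ?_
    rw [Finsupp.single_le_iff]
    omega
  refine ⟨γ - Finsupp.single v 1, v, by rw [hsplit]; exact hγ.1, ?_, by rw [hsplit]; exact hγ.2⟩
  have hdeg : (γ - Finsupp.single v 1).degree < γ.degree := by
    have h1 : (γ - Finsupp.single v 1 + Finsupp.single v 1).degree = γ.degree := by rw [hsplit]
    rw [map_add] at h1
    have h2 : (Finsupp.single v 1 : σ →₀ ℕ).degree = 1 := by simp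
    omega
  have hnot : γ - Finsupp.single v 1 ∉ S := by
    intro h
    have := hmin _ h
    omega
  have hbox : γ - Finsupp.single v 1 ∈ expBox σ I := by
    rw [mem_expBox]
    omega
  rcases hfree _ hbox with h | h
  · exact h
  · exact absurd (by rw [hS, Finset.mem_filter]; exact ⟨hbox, h⟩) hnot

/-- **The Taylor step.** If the coefficient sum at the radius `ρ` is large then a coefficient of
bounded degree is large. -/
theorem taylor_step (T : MvPolynomial σ ℝ) (I : ℕ) (ρ η B : ℝ) (hρ : 0 ≤ ρ) (hρ1 : ρ ≤ 1)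
    (hB : coefSum T ≤ B) (hη : η ≤ coefSum (shA T (fun _ => ρ) (fun _ => 0)))
    (h : ρ ^ (I + 1) * B ≤ η / 2) : ∃ β : σ →₀ ℕ, β.degree ≤ I ∧
      η / (2 * (expBox σ I).card) ≤ |coeff β T| := by
  classical
  have hwgt : ∀ β : σ →₀ ℕ, wgt (fun _ => ρ) β = ρ ^ β.degree := by
    intro β
    unfold wgt Finsupp.prod
    simp only []
    rw [Finset.prod_pow_eq_pow_sum]
    rfl
  obtain ⟨D, hD⟩ : ∃ D, D = max T.totalDegree I := ⟨_, rfl⟩
  have h1 : coefSum (shA T (fun _ => ρ) (fun _ => 0)) =
      ∑ β ∈ expBox σ D, ρ ^ β.degree * |coeff β T| := by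
    rw [coefSum_eq_box _ D ((totalDegree_shA_le _ _ _).trans (by rw [hD]; exact le_max_left _ _))]
    refine Finset.sum_congr rfl fun β _ => ?_
    rw [coeff_shA_zero, hwgt, abs_mul, abs_of_nonneg (pow_nonneg hρ _)]
  have hsub : expBox σ I ⊆ expBox σ D := by
    intro β hβ
    rw [mem_expBox] at hβ ⊢
    exact hβ.trans (by rw [hD]; exact le_max_right _ _)
  have h2 : (∑ β ∈ expBox σ D, ρ ^ β.degree * |coeff β T|) ≤
      (∑ β ∈ expBox σ I, |coeff β T|) + ρ ^ (I + 1) * B := by
    rw [← Finset.sum_sdiff hsub, add_comm]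
    refine add_le_add ?_ ?_
    · refine Finset.sum_le_sum fun β _ => ?_
      calc ρ ^ β.degree * |coeff β T| ≤ 1 * |coeff β T| :=
            mul_le_mul_of_nonneg_right (pow_le_one₀ hρ hρ1) (abs_nonneg _)
        _ = _ := one_mul _
    · calc (∑ β ∈ expBox σ D \ expBox σ I, ρ ^ β.degree * |coeff β T|) ≤
          (∑ β ∈ expBox σ D \ expBox σ I, ρ ^ (I + 1) * |coeff β T|) := by
            refine Finset.sum_le_sum fun β hβ => ?_
            rw [Finset.mem_sdiff, mem_expBox, mem_expBox] at hβ
            exact mul_le_mul_of_nonneg_right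
              (pow_le_pow_of_le_one hρ hρ1 (by omega)) (abs_nonneg _)
        _ = ρ ^ (I + 1) * (∑ β ∈ expBox σ D \ expBox σ I, |coeff β T|) := by
            rw [Finset.mul_sum]
        _ ≤ ρ ^ (I + 1) * B := by
            refine mul_le_mul_of_nonneg_left ?_ (pow_nonneg hρ _)
            exact (coefSum_le_of_subset T _).trans hB
  have h3 : η / 2 ≤ ∑ β ∈ expBox σ I, |coeff β T| := by
    rw [h1] at hη
    linarith
  by_contra hcon
  push Not at hcon
  have hne : (expBox σ I).Nonempty := ⟨0, by rw [mem_expBox]; simp⟩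
  have hcard : (0 : ℝ) < (expBox σ I).card := by
    exact_mod_cast Finset.card_pos.2 hne
  have h4 : (∑ β ∈ expBox σ I, |coeff β T|) < ∑ _β ∈ expBox σ I, η / (2 * (expBox σ I).card) := by
    refine Finset.sum_lt_sum_of_nonempty hne fun β hβ => ?_
    exact hcon β ((mem_expBox I β).1 hβ)
  rw [Finset.sum_const, nsmul_eq_mul] at h4
  have h5 : ((expBox σ I).card : ℝ) * (η / (2 * (expBox σ I).card)) = η / 2 := by
    field_simp
  linarith

end gap

section loc

variable {σ : Type} [Fintype σ] [DecidableEq σ]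

theorem shA_pderiv (v : σ) (P : MvPolynomial σ ℝ) (y : σ → ℝ) :
    shA (pderiv v P) (fun _ => 1) y = pderiv v (shA P (fun _ => 1) y) := by
  induction P using MvPolynomial.induction_on with
  | C a =>
    have h1 : shA (C a : MvPolynomial σ ℝ) (fun _ => 1) y = C a := by
      unfold shA
      rw [aeval_C, algebraMap_eq]
    rw [h1, pderiv_C]
    unfold shA
    rw [map_zero]
  | add P Q hP hQ =>
    rw [shA_add, map_add, map_add, shA_add, hP, hQ]
  | mul_X P i hP =>
    have hm : ∀ Q R : MvPolynomial σ ℝ, shA (Q * R) (fun _ => 1) y =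
        shA Q (fun _ => 1) y * shA R (fun _ => 1) y := by
      intro Q R
      unfold shA
      rw [map_mul]
    have hX : shA (X i : MvPolynomial σ ℝ) (fun _ => 1) y = C (y i) + X i := by
      unfold shA
      rw [aeval_X, map_one, one_mul]
    rw [pderiv_mul, shA_add, hm, hm, hm, pderiv_mul, hP, hX]
    congr 1
    congr 1
    rw [map_add, pderiv_C, zero_add, pderiv_X]
    by_cases h : i = v
    · subst h
      rw [Pi.single_eq_same]
      unfold shA
      rw [map_one]
    · rw [Pi.single_apply, if_neg h]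
      unfold shA
      rw [map_zero]

/-- The Taylor coefficient along a coordinate line, as a polynomial in the coordinate. -/
theorem exists_q (P : MvPolynomial σ ℝ) (d : ℕ) (hP : P.totalDegree ≤ d) (β : σ →₀ ℕ) (v : σ)
    (y : σ → ℝ) : ∃ q : Polynomial ℝ, q.natDegree ≤ d ∧
      (∀ t : ℝ, q.eval t = coeff β (shA P (fun _ => 1) (Function.update y v t))) ∧
      ∀ t : ℝ, q.derivative.eval t = (β v + 1) *
        coeff (β + Finsupp.single v 1) (shA P (fun _ => 1) (Function.update y v t)) := by
  classical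
  have hline : ∀ t : ℝ, (fun i => (Function.update y v 0) i + t * (if i = v then 1 else 0)) =
      Function.update y v t := by
    intro t
    funext i
    by_cases h : i = v
    · subst h
      simp
    · simp [h]
  obtain ⟨q, hq1, hq2⟩ := exists_line (jet P 1 β) (Function.update y v 0)
    (fun i => if i = v then 1 else 0)
  have hq3 : ∀ t : ℝ, q.eval t = coeff β (shA P (fun _ => 1) (Function.update y v t)) := by
    intro t
    rw [shA_const, coeff_shf, ← hq2 t, hline]
  refine ⟨q, hq1.trans ((totalDegree_jet_le P 1 β).trans hP), hq3, fun t => ?_⟩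
  have h1 := hasDerivAt_coeff_shA v P (Function.update y v 0) t β
  simp only [hline] at h1
  have h2 : HasDerivAt (fun s : ℝ => q.eval s) (q.derivative.eval t) t := q.hasDerivAt t
  have h3 : (fun s : ℝ => coeff β (shA P (fun _ => 1) (Function.update y v s))) =
      fun s : ℝ => q.eval s := by
    funext s
    rw [hq3]
  rw [h3] at h1
  have h4 := h2.unique h1
  rw [h4]
  rw [shA_pderiv, coeff_pderiv]
  ring

/-- **(LOC)** Where a Taylor coefficient of a polynomial is small and the next one is large, one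
coordinate is known from the others. -/
theorem loc {Ω Γ : Type} [Fintype Ω] {p : Ω → ℝ} (hp : IsLaw p) (c : Ω → Γ)
    (h : Γ → MvPolynomial σ ℝ) (d : ℕ) (hd : ∀ g, (h g).totalDegree ≤ d) (pos : Ω → σ → ℕ)
    (M : ℕ) (hM : 0 < M) (β : σ →₀ ℕ) (v : σ) (a b : ℝ) (ha : 0 ≤ a) (hb : 0 < b)
    (h1 : ∀ ω, 0 < p ω →
      |coeff β (shA (h (c ω)) (fun _ => 1) (fun i => (pos ω i : ℝ) / M))| ≤ a)
    (h2 : ∀ ω, 0 < p ω → b ≤
      |coeff (β + Finsupp.single v 1) (shA (h (c ω)) (fun _ => 1) (fun i => (pos ω i : ℝ) / M))|) :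
    CH p (fun ω => pos ω v) (fun ω => (c ω, Function.update (pos ω) v 0)) ≤
      Real.log (2 * d * (2 * a * M / b + 1)) := by
  classical
  choose q hq1 hq2 hq3 using fun (g : Γ × (σ → ℕ)) =>
    exists_q (h g.1) d (hd g.1) β v (fun i => (g.2 i : ℝ) / M)
  have hupd : ∀ ω, Function.update (fun i => ((Function.update (pos ω) v 0) i : ℝ) / M) v
      ((pos ω v : ℝ) / M) = fun i => (pos ω i : ℝ) / M := by
    intro ω
    funext i
    by_cases hi : i = v
    · subst hi
      simp
    · simp [hi]
  refine CH_cnt1 hp (fun ω => (c ω, Function.update (pos ω) v 0)) (fun ω => pos ω v) q d hq1 a b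
    ha hb M hM fun ω hω => ?_
  constructor
  · rw [hq2]
    simp only [hupd]
    exact h1 ω hω
  · rw [hq3]
    simp only [hupd]
    rw [abs_mul]
    have h3 : (1 : ℝ) ≤ |((β v : ℝ) + 1)| := by
      rw [abs_of_pos (by positivity)]
      have : (0 : ℝ) ≤ β v := Nat.cast_nonneg _
      linarith
    have h4 := mul_le_mul_of_nonneg_right h3 (abs_nonneg (coeff (β + Finsupp.single v 1)
      (shA (h (c ω)) (fun _ => 1) (fun i => (pos ω i : ℝ) / M))))
    rw [one_mul] at h4
    exact (h2 ω hω).trans h4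

end loc

end Pool.LJ
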