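import Pool.Agent.H78.KST.JetA
import Pool.Agent.H99.KST.LRN

/-!
# LEMMA J, row J4: counting the points where a derivative is small and the next one is large

`K_JUMP_helper79.md`, section 3.
-/

set_option autoImplicit false

namespace Pool.LJ

open Finset Real
open Pool.Agent.H49.Ent Pool.Agent.H32.Dense Pool.STK

/-- The grid points where a polynomial of degree at most `d` is at most `a` and its derivative is
at least `b`. -/
theorem cnt1 (q : Polynomial ℝ) (d : ℕ) (hd : q.natDegree ≤ d) (a b : ℝ) (ha : 0 ≤ a)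
    (hb : 0 < b) (M : ℕ) (hM : 0 < M) (E : Finset ℕ)
    (hE : ∀ t ∈ E, |q.eval ((t : ℝ) / M)| ≤ a ∧ b ≤ |q.derivative.eval ((t : ℝ) / M)|) :
    (E.card : ℝ) ≤ 2 * d * (2 * a * M / b + 1) := by
  classical
  have hMr : (0 : ℝ) < M := by exact_mod_cast hM
  rcases E.eq_empty_or_nonempty with hE0 | ⟨t₀, ht₀⟩
  · rw [hE0]
    simp only [Finset.card_empty, Nat.cast_zero]
    positivity
  -- the degree is positive
  have hd1 : 1 ≤ d := by
    by_contra h
    have h0 : q.natDegree = 0 := by omega
    have h1 := (hE t₀ ht₀).2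
    rw [Polynomial.derivative_of_natDegree_zero h0, Polynomial.eval_zero, abs_zero] at h1
    linarith
  obtain ⟨r, hr⟩ : ∃ r : Polynomial ℝ, r = q.derivative ^ 2 - Polynomial.C (b ^ 2) := ⟨_, rfl⟩
  have hreval : ∀ x : ℝ, r.eval x = (q.derivative.eval x) ^ 2 - b ^ 2 := by
    intro x
    rw [hr]
    simp
  have hrdeg : r.natDegree ≤ 2 * (d - 1) := by
    rw [hr]
    refine (Polynomial.natDegree_sub_le _ _).trans ?_
    rw [Polynomial.natDegree_C]
    refine max_le ?_ (Nat.zero_le _)
    refine Polynomial.natDegree_pow_le.trans ?_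
    have := Polynomial.natDegree_derivative_le q
    exact Nat.mul_le_mul_left _ (by omega)
  obtain ⟨φ, hφ⟩ : ∃ φ : ℕ → ℕ, ∀ t, φ t =
      (r.roots.toFinset.filter (fun x => (t : ℝ) / M < x)).card := ⟨_, fun _ => rfl⟩
  have hφle : ∀ t, φ t ≤ 2 * (d - 1) := by
    intro t
    rw [hφ]
    exact (Finset.card_filter_le _ _).trans ((Multiset.toFinset_card_le _).trans
      ((Polynomial.card_roots' r).trans hrdeg))
  -- two points of one fibre are near
  have hnear : ∀ s ∈ E, ∀ t ∈ E, s < t → φ s = φ t → ((t : ℝ) - s) ≤ 2 * a * M / b := by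
    intro s hs t ht hst hφst
    have hst' : (s : ℝ) / M < (t : ℝ) / M := by
      have : (s : ℝ) < t := by exact_mod_cast hst
      exact div_lt_div_of_pos_right this hMr
    -- the same roots on the right
    have hsub : r.roots.toFinset.filter (fun x => (t : ℝ) / M < x) ⊆
        r.roots.toFinset.filter (fun x => (s : ℝ) / M < x) := by
      intro x hx
      rw [Finset.mem_filter] at hx ⊢
      exact ⟨hx.1, hst'.trans hx.2⟩
    have heq : r.roots.toFinset.filter (fun x => (t : ℝ) / M < x) =
        r.roots.toFinset.filter (fun x => (s : ℝ) / M < x) := by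
      refine Finset.eq_of_subset_of_card_le hsub ?_
      rw [← hφ, ← hφ, hφst]
    have hnoroot : r ≠ 0 → ∀ x, (s : ℝ) / M < x → x ≤ (t : ℝ) / M → r.eval x ≠ 0 := by
      intro hr0 x h1 h2 h3
      have h4 : x ∈ r.roots.toFinset.filter (fun x => (s : ℝ) / M < x) := by
        rw [Finset.mem_filter, Multiset.mem_toFinset, Polynomial.mem_roots hr0]
        exact ⟨h3, h1⟩
      rw [← heq, Finset.mem_filter] at h4
      exact absurd h4.2 (not_lt.2 h2)
    have hpos : ∀ x, (s : ℝ) / M < x → x ≤ (t : ℝ) / M → 0 ≤ r.eval x := by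
      intro x h1 h2
      by_contra h3
      push Not at h3
      have hr0 : r ≠ 0 := by
        intro h
        rw [h, Polynomial.eval_zero] at h3
        exact lt_irrefl _ h3
      have h4 : 0 ≤ r.eval ((t : ℝ) / M) := by
        rw [hreval]
        have h5 := (hE t ht).2
        have h6 : b ^ 2 ≤ |q.derivative.eval ((t : ℝ) / M)| ^ 2 :=
          pow_le_pow_left₀ hb.le h5 2
        rw [sq_abs] at h6
        linarith
      have hcont : ContinuousOn (fun y => r.eval y) (Set.Icc x ((t : ℝ) / M)) :=
        r.continuous.continuousOn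
      have hivt := intermediate_value_Icc h2 hcont
      obtain ⟨y, hy, hy0⟩ := hivt ⟨h3.le, h4⟩
      exact hnoroot hr0 y (h1.trans_le hy.1) hy.2 hy0
    obtain ⟨ξ, hξ, hmvt⟩ := exists_deriv_eq_slope (fun x => q.eval x) hst'
      q.continuous.continuousOn (q.differentiable.differentiableOn)
    have h1 : b ≤ |q.derivative.eval ξ| := by
      have h2 := hpos ξ hξ.1 hξ.2.le
      rw [hreval] at h2
      have h3 : b ^ 2 ≤ |q.derivative.eval ξ| ^ 2 := by
        rw [sq_abs]
        linarith
      exact (sq_le_sq₀ hb.le (abs_nonneg _)).1 h3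
    rw [Polynomial.deriv] at hmvt
    have h2 : q.derivative.eval ξ * ((t : ℝ) / M - (s : ℝ) / M) =
        q.eval ((t : ℝ) / M) - q.eval ((s : ℝ) / M) := by
      rw [hmvt]
      have : (t : ℝ) / M - (s : ℝ) / M ≠ 0 := by
        have := sub_pos.2 hst'
        exact this.ne'
      rw [div_mul_cancel₀ _ this]
    have h3 : |q.eval ((t : ℝ) / M) - q.eval ((s : ℝ) / M)| ≤ 2 * a := by
      have h4 := (hE t ht).1
      have h5 := (hE s hs).1
      rw [abs_le] at h4 h5 ⊢
      constructor <;> linarith [h4.1, h4.2, h5.1, h5.2]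
    rw [← h2, abs_mul, abs_of_pos (by linarith : 0 < (t : ℝ) / M - (s : ℝ) / M)] at h3
    have h4 : b * ((t : ℝ) / M - (s : ℝ) / M) ≤ 2 * a :=
      (mul_le_mul_of_nonneg_right h1 (by linarith)).trans h3
    rw [← sub_div, mul_div_assoc', div_le_iff₀ hMr] at h4
    rw [le_div_iff₀ hb]
    linarith
  -- the fibres
  obtain ⟨K, hK⟩ : ∃ K : ℕ, K = ⌊2 * a * M / b⌋₊ + 1 := ⟨_, rfl⟩
  have hfib : ∀ v ∈ E.image φ, (E.filter (fun t => φ t = v)).card ≤ K := by
    intro v _
    rcases (E.filter (fun t => φ t = v)).eq_empty_or_nonempty with h0 | hne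
    · rw [h0]; simp
    · obtain ⟨s, hs⟩ : ∃ s, s = (E.filter (fun t => φ t = v)).min' hne := ⟨_, rfl⟩
      have hsm : s ∈ E.filter (fun t => φ t = v) := by rw [hs]; exact Finset.min'_mem _ _
      have hsub : E.filter (fun t => φ t = v) ⊆ Finset.Ico s (s + K) := by
        intro t ht
        rw [Finset.mem_Ico]
        have h1 : s ≤ t := by rw [hs]; exact Finset.min'_le _ _ ht
        refine ⟨h1, ?_⟩
        rcases Nat.lt_or_ge s t with h2 | h2
        · rw [Finset.mem_filter] at ht hsm
          have h3 := hnear s hsm.1 t ht.1 h2 (hsm.2.trans ht.2.symm)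
          rw [← Nat.cast_sub h1] at h3
          have h4 := Nat.le_floor h3
          omega
        · omega
      have := Finset.card_le_card hsub
      rw [Nat.card_Ico] at this
      omega
  have hcard : E.card ≤ K * (E.image φ).card := by
    refine Finset.card_le_mul_card_image E K ?_
    intro v hv
    exact hfib v hv
  have himg : (E.image φ).card ≤ 2 * d := by
    have h1 : E.image φ ⊆ Finset.range (2 * (d - 1) + 1) := by
      intro v hv
      rw [Finset.mem_image] at hv
      obtain ⟨t, -, rfl⟩ := hv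
      rw [Finset.mem_range]
      have := hφle t
      omega
    have h2 := Finset.card_le_card h1
    rw [Finset.card_range] at h2
    omega
  have h1 : E.card ≤ K * (2 * d) := hcard.trans (Nat.mul_le_mul_left _ himg)
  have h2 : (E.card : ℝ) ≤ K * (2 * d) := by exact_mod_cast h1
  have h3 : (K : ℝ) ≤ 2 * a * M / b + 1 := by
    rw [hK]
    push_cast
    have := Nat.floor_le (by positivity : 0 ≤ 2 * a * M / b)
    linarith
  have h4 : (0 : ℝ) ≤ 2 * d := by positivity
  calc (E.card : ℝ) ≤ K * (2 * d) := h2
    _ ≤ (2 * a * M / b + 1) * (2 * d) := mul_le_mul_of_nonneg_right h3 h4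
    _ = _ := by ring

/-- The entropy version of `cnt1`. -/
theorem CH_cnt1 {Ω Γ : Type} [Fintype Ω] {p : Ω → ℝ} (hp : IsLaw p) (c : Ω → Γ) (X : Ω → ℕ)
    (q : Γ → Polynomial ℝ) (d : ℕ) (hd : ∀ g, (q g).natDegree ≤ d) (a b : ℝ) (ha : 0 ≤ a)
    (hb : 0 < b) (M : ℕ) (hM : 0 < M)
    (h : ∀ ω, 0 < p ω → |(q (c ω)).eval ((X ω : ℝ) / M)| ≤ a ∧
      b ≤ |(q (c ω)).derivative.eval ((X ω : ℝ) / M)|) :
    CH p X c ≤ Real.log (2 * d * (2 * a * M / b + 1)) := by
  classical
  have h1 := CH_le_card hp.nonneg hp.sum_one X c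
    (fun g => (univ.filter (fun ω => 0 < p ω ∧ c ω = g)).image X)
    (fun ω hω => Finset.mem_image_of_mem X (by simp [hω]))
  refine h1.trans ?_
  have h2 : ∀ ω, 0 < p ω → Real.log
      (((univ.filter (fun ω' => 0 < p ω' ∧ c ω' = c ω)).image X).card : ℝ) ≤
        Real.log (2 * d * (2 * a * M / b + 1)) := by
    intro ω hω
    refine Real.log_le_log ?_ ?_
    · have : X ω ∈ (univ.filter (fun ω' => 0 < p ω' ∧ c ω' = c ω)).image X :=
        Finset.mem_image_of_mem X (by simp [hω])
      have := Finset.card_pos.2 ⟨_, this⟩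
      exact_mod_cast this
    · refine cnt1 (q (c ω)) d (hd _) a b ha hb M hM _ ?_
      intro t ht
      rw [Finset.mem_image] at ht
      obtain ⟨ω', hω', rfl⟩ := ht
      simp only [Finset.mem_filter, Finset.mem_univ, true_and] at hω'
      rw [← hω'.2]
      exact h ω' hω'.1
  unfold Ex
  calc (∑ ω, p ω * Real.log
      (((univ.filter (fun ω' => 0 < p ω' ∧ c ω' = c ω)).image X).card : ℝ)) ≤
      (∑ ω, p ω * Real.log (2 * d * (2 * a * M / b + 1))) := by
        refine Finset.sum_le_sum fun ω _ => ?_
        rcases (hp.nonneg ω).lt_or_eq with h3 | h3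
        · exact mul_le_mul_of_nonneg_left (h2 ω h3) h3.le
        · rw [← h3, zero_mul, zero_mul]
    _ = _ := by rw [← Finset.sum_mul, hp.sum_one, one_mul]

open MvPolynomial Pool.KAL Pool.KST

section jets

variable {σ : Type*}

/-- The Taylor coefficients along a coordinate line are differentiable. -/
theorem hasDerivAt_coeff_shA [DecidableEq σ] (v : σ) (P : MvPolynomial σ ℝ) (x : σ → ℝ) (t : ℝ) :
    ∀ β : σ →₀ ℕ, HasDerivAt (fun s : ℝ => coeff β (shA P (fun _ => 1) (fun i => x i + s * (if i = v then 1 else 0))))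
      (coeff β (shA (pderiv v P) (fun _ => 1) (fun i => x i + t * (if i = v then 1 else 0)))) t := by
  induction P using MvPolynomial.induction_on with
  | C a =>
    intro β
    have h1 : ∀ y : σ → ℝ, shA (C a : MvPolynomial σ ℝ) (fun _ => 1) y = C a := by
      intro y
      unfold shA
      rw [aeval_C, algebraMap_eq]
    simp only [h1, pderiv_C]
    have h2 : shA (0 : MvPolynomial σ ℝ) (fun _ => 1)
        (fun i => x i + t * (if i = v then 1 else 0)) = 0 := by
      unfold shA
      rw [map_zero]
    rw [h2, coeff_zero]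
    exact hasDerivAt_const _ _
  | add P Q hP hQ =>
    intro β
    simp only [shA_add, map_add, coeff_add]
    exact (hP β).add (hQ β)
  | mul_X P i hP =>
    intro β
    have hm : ∀ y : σ → ℝ, shA (P * X i) (fun _ => 1) y =
        shA P (fun _ => 1) y * (C (y i) + X i) := by
      intro y
      unfold shA
      rw [map_mul, aeval_X, map_one, one_mul]
    have hc : ∀ (Q : MvPolynomial σ ℝ) (c : ℝ), coeff β (Q * (C c + X i)) =
        c * coeff β Q + (if i ∈ β.support then coeff (β - Finsupp.single i 1) Q else 0) := by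
      intro Q c
      rw [mul_add, coeff_add, coeff_mul_X', mul_comm Q, coeff_C_mul]
    simp only [hm, hc]
    rw [pderiv_mul]
    rw [shA_add, coeff_add]
    have hm2 : shA (pderiv v P * X i) (fun _ => 1)
        (fun i => x i + t * (if i = v then 1 else 0)) = shA (pderiv v P) (fun _ => 1)
        (fun i => x i + t * (if i = v then 1 else 0)) *
          (C (x i + t * (if i = v then 1 else 0)) + X i) := by
      unfold shA
      rw [map_mul, aeval_X, map_one, one_mul]
    rw [hm2, hc]
    have h3 : shA (P * pderiv v (X i)) (fun _ => 1)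
        (fun i => x i + t * (if i = v then 1 else 0)) = C (if i = v then 1 else 0) *
          shA P (fun _ => 1) (fun i => x i + t * (if i = v then 1 else 0)) := by
      rw [pderiv_X]
      by_cases h : i = v
      · subst h
        simp
      · rw [Pi.single_apply]
        simp only [if_neg h]
        unfold shA
        simp
    rw [h3, coeff_C_mul]
    have d1 : HasDerivAt (fun s : ℝ => x i + s * (if i = v then 1 else 0))
        (if i = v then 1 else 0 : ℝ) t := by
      have := ((hasDerivAt_id t).mul_const (if i = v then 1 else 0 : ℝ)).const_add (x i)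
      simpa using this
    have d2 := d1.mul (hP β)
    by_cases h : i ∈ β.support
    · simp only [if_pos h]
      have d3 := d2.add (hP (β - Finsupp.single i 1))
      refine d3.congr_deriv ?_
      ring
    · simp only [if_neg h, add_zero]
      refine d2.congr_deriv ?_
      ring

end jets

end Pool.LJ
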