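import Pool.Agent.H99.KST.LRN

/-!
# LEMMA J, row J6: full blocks cover the zone

`K_JUMP_helper79.md`, section 3: if from every row starts a block which is nearly full, then the
mean rate of the zone is large.
-/

set_option autoImplicit false

namespace Pool.LJ

open Finset Real
open Pool.Agent.H49.Ent Pool.Agent.H32.Dense Pool.STK

/-- The covering by consecutive blocks. -/
theorem cover (h : ℕ → ℝ) (hm : Monotone h) (κ : ℝ) (L P₁ : ℕ) :
    ∀ (k P₂ : ℕ), P₁ - P₂ ≤ k → P₂ ≤ P₁ →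
      (∀ R, P₂ ≤ R → R + L ≤ P₁ → ∃ q, 0 < q ∧ q ≤ L ∧ κ * q ≤ h (R + q) - h R) → 0 ≤ κ →
      κ * ((P₁ : ℝ) - P₂ - L) ≤ h P₁ - h P₂ := by
  intro k
  induction k with
  | zero =>
    intro P₂ hk hle _ hκ
    have : P₂ = P₁ := by omega
    rw [this]
    have h1 : 0 ≤ κ * (L : ℝ) := by positivity
    have h2 : κ * ((P₁ : ℝ) - P₁ - L) = -(κ * L) := by ring
    rw [h2]
    linarith
  | succ k ih =>
    intro P₂ hk hle hb hκ
    by_cases hL : P₂ + L ≤ P₁
    · obtain ⟨q, hq0, hqL, hq⟩ := hb P₂ le_rfl hL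
      have h1 := ih (P₂ + q) (by omega) (by omega) (fun R hR => hb R (by omega)) hκ
      push_cast at h1
      have h2 : κ * ((P₁ : ℝ) - P₂ - L) = κ * ((P₁ : ℝ) - (P₂ + q) - L) + κ * q := by ring
      rw [h2]
      linarith
    · have h1 : (P₁ : ℝ) - P₂ - L ≤ 0 := by
        have h3 : P₁ < P₂ + L := by omega
        have h4 : (P₁ : ℝ) < P₂ + L := by exact_mod_cast h3
        linarith
      have h2 : κ * ((P₁ : ℝ) - P₂ - L) ≤ 0 := mul_nonpos_of_nonneg_of_nonpos hκ h1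
      have h3 := hm hle
      linarith

/-- The covering for the entropies of truncated digits: `N b` determines `N a` for `a ≤ b`. -/
theorem cover_CH {Ω S Y : Type} [Fintype Ω] {p : Ω → ℝ} (hp : IsLaw p) (N : ℕ → Ω → S)
    (y : Ω → Y) (hN : ∀ a b, a ≤ b → ∀ ω ω', 0 < p ω → 0 < p ω' → N b ω = N b ω' →
      N a ω = N a ω') (κ : ℝ) (hκ : 0 ≤ κ) (L P₁ P₂ : ℕ) (hP : P₂ ≤ P₁)
    (hb : ∀ R, P₂ ≤ R → R + L ≤ P₁ → ∃ q, 0 < q ∧ q ≤ L ∧
      κ * q ≤ CH p (N (R + q)) (fun ω => (N R ω, y ω))) :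
    κ * ((P₁ : ℝ) - P₂ - L) ≤ CH p (N P₁) (fun ω => (N P₂ ω, y ω)) := by
  classical
  have key : ∀ a b, a ≤ b → CH p (N b) (fun ω => (N a ω, y ω)) = CH p (N b) y - CH p (N a) y := by
    intro a b hab
    have h1 := CH_chain hp.nonneg (N b) (N a) y
    have h2 : CH p (fun ω => (N b ω, N a ω)) y = CH p (N b) y := by
      refine CH_congr hp.nonneg ?_ ?_ (fun _ _ _ _ h => h) (fun _ _ _ _ h => h)
      · intro ω ω' _ _ h
        exact (Prod.ext_iff.mp (Prod.ext_iff.mp h).1).1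
      · intro ω ω' h3 h4 h
        have h5 : N b ω = N b ω' := (Prod.ext_iff.mp h).1
        exact Prod.ext h5 (hN a b hab ω ω' h3 h4 h5)
    linarith
  have hmono : Monotone (fun a => CH p (N a) y) := by
    intro a b hab
    have h1 := key a b hab
    have h2 : 0 ≤ CH p (N b) (fun ω => (N a ω, y ω)) := CH_nonneg hp.nonneg _ _
    show CH p (N a) y ≤ CH p (N b) y
    linarith
  have h1 := cover (fun a => CH p (N a) y) hmono κ L P₁ (P₁ - P₂) P₂ le_rfl hP (fun R hR hRL => by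
    obtain ⟨q, hq0, hqL, hq⟩ := hb R hR hRL
    refine ⟨q, hq0, hqL, ?_⟩
    rw [key R (R + q) (by omega)] at hq
    exact hq) hκ
  rw [key P₂ P₁ hP]
  exact h1

end Pool.LJ
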